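import Pool.Agent.Q267.E8.Stm2

set_option autoImplicit false

/-!
# Project E8 (helper267), job AX: the algebra of case 3 (helper205)
-/

namespace Pool.Agent.Q205.E8.AXj

open Finset Pool.Agent.Q267.CDE Pool.Agent.Q267.MW Pool.Agent.Q267.E8

/-- reduction of `(ℤ/p²)[√2]` to `𝔽_p[√2]` -/
def rho (p : ℕ) [Fact p.Prime] : QuadraticAlgebra (R p) 2 0 →+* QuadraticAlgebra (ZMod p) 2 0 where
  toFun z := ⟨red p z.re, red p z.im⟩
  map_one' := by
    apply QuadraticAlgebra.ext
    · exact map_one (red p)
    · exact map_zero (red p)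
  map_zero' := by
    apply QuadraticAlgebra.ext
    · exact map_zero (red p)
    · exact map_zero (red p)
  map_mul' x y := by
    apply QuadraticAlgebra.ext
    · show red p (x * y).re = _
      rw [QuadraticAlgebra.re_mul, QuadraticAlgebra.re_mul, map_add, map_mul, map_mul, map_mul,
        map_ofNat]
    · show red p (x * y).im = _
      rw [QuadraticAlgebra.im_mul, QuadraticAlgebra.im_mul, map_add, map_add, map_mul, map_mul,
        map_mul, map_mul, map_zero]
  map_add' x y := by
    apply QuadraticAlgebra.ext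
    · exact map_add (red p) _ _
    · exact map_add (red p) _ _

theorem rho_re (p : ℕ) [Fact p.Prime] (z : QuadraticAlgebra (R p) 2 0) : (rho p z).re = red p z.re := rfl

theorem rho_im (p : ℕ) [Fact p.Prime] (z : QuadraticAlgebra (R p) 2 0) : (rho p z).im = red p z.im := rfl

end Pool.Agent.Q205.E8.AXj

namespace Pool.Agent.Q205.E8

open Finset Pool.Agent.Q267.CDE Pool.Agent.Q267.MW Pool.Agent.Q267.E8 AXj

theorem ax : S_AX := by
  intro p q hp hpq
  have hF : Fact (∀ r : ZMod p, r ^ 2 ≠ 2 + 0 * r) := ⟨by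
    intro r hr
    have h1 : IsSquare (2 : ZMod p) := ⟨r, by linear_combination -hr⟩
    rw [ZMod.exists_sq_eq_two_iff (by omega)] at h1
    omega⟩
  have hchar : CharP (QuadraticAlgebra (ZMod p) 2 0) p :=
    charP_of_injective_algebraMap
      (algebraMap (ZMod p) (QuadraticAlgebra (ZMod p) 2 0)).injective p
  refine ⟨QuadraticAlgebra (R p) 2 0, inferInstance, inferInstance,
    QuadraticAlgebra (ZMod p) 2 0, inferInstance, hchar, rho p, QuadraticAlgebra.omega, ?_, ?_, ?_⟩
  · refine (pow_two _).trans (QuadraticAlgebra.omega_mul_omega_eq_mk.trans ?_)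
    apply QuadraticAlgebra.ext
    · rfl
    · rfl
  · intro x y hxy
    have h1 := congrArg QuadraticAlgebra.re hxy
    exact h1
  · intro x hx
    have h1 : red p x.re = 0 := congrArg QuadraticAlgebra.re hx
    have h2 : red p x.im = 0 := congrArg QuadraticAlgebra.im hx
    obtain ⟨u, hu⟩ := red_eq_of p x.re 0 (by rw [h1, map_zero])
    obtain ⟨v, hv⟩ := red_eq_of p x.im 0 (by rw [h2, map_zero])
    rw [zero_add] at hu hv
    refine ⟨⟨u, v⟩, ?_⟩
    apply QuadraticAlgebra.ext
    · rw [QuadraticAlgebra.re_mul, QuadraticAlgebra.re_natCast, QuadraticAlgebra.im_natCast, hu]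
      ring
    · rw [QuadraticAlgebra.im_mul, QuadraticAlgebra.re_natCast, QuadraticAlgebra.im_natCast, hv]
      ring

end Pool.Agent.Q205.E8
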