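import Pool.Agent.Q267.E8.Stm2

set_option autoImplicit false

/-!
# Project E8 (helper267), job LF1: case 1, the last step (helper205)
-/

namespace Pool.Agent.Q205.E8

open Finset Pool.Agent.Q267.CDE Pool.Agent.Q267.MW Pool.Agent.Q267.E8

theorem lf1 : S_LF1 := by
  intro p q hp r a b u G h Q hpq hr hh h2 hab hb hG hk
  have hP : ((p : ℕ) : R p) ^ 2 = 0 := p_sq p
  have hq : 0 < q := by
    rcases Nat.eq_zero_or_pos q with h0 | h0
    · exfalso
      rw [h0] at hpq
      exact hp.out.one_lt.ne' hpq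
    · exact h0
  -- the unit `e`
  have he : (1 + r) * (r - 1) = 1 := by linear_combination hr
  have hne : red p (1 + r) ≠ 0 := by
    intro h0
    have h1 := congrArg (red p) he
    rw [map_mul, h0, zero_mul, map_one] at h1
    exact zero_ne_one h1
  have h8 : (1 + r) ^ (8 * q) = ((1 + r) ^ (4 * q)) ^ 2 := by
    rw [← pow_mul]
    congr 1
    ring
  have hE : red p (((1 + r) ^ (4 * q)) ^ 2) = red p 1 := by
    rw [← h8, map_pow, map_one]
    have h1 := ZMod.pow_card_sub_one_eq_one hne
    rwa [show p - 1 = 8 * q by omega] at h1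
  obtain ⟨y, hy⟩ := red_eq_of p _ _ hE
  -- powers of two
  have h4 : (4 : R p) ^ q = 2 ^ (2 * q) := by
    rw [pow_mul]
    norm_num
  have h24 : ((2 : R p) ^ (2 * q)) ^ 4 = 1 + p * lift p Q := by
    rw [← h2, ← pow_mul]
    congr 1
    omega
  set s : R p := (-1) ^ q with hs
  have hs2 : s ^ 2 = 1 := by
    rw [hs, ← pow_mul, mul_comm, pow_mul]
    norm_num
  set E : R p := (1 + r) ^ (4 * q) with hEdef
  set t : R p := 2 ^ (2 * q) with ht
  have hk' : red p (t * E) = red p s := by
    rw [hk, hs, map_pow, map_neg, map_one]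
  obtain ⟨w, hw⟩ := red_eq_of p _ _ hk'
  have ht2 : red p (t ^ 2) = red p 1 := by
    have h1 : red p ((t * E) ^ 2) = red p (s ^ 2) := by rw [map_pow, hk', ← map_pow]
    rw [mul_pow, map_mul, hE, hs2, map_one, mul_one] at h1
    rw [h1, map_one]
  obtain ⟨z, hz⟩ := red_eq_of p _ _ ht2
  -- `p z = h p L`
  have e1 : 2 * ((p : R p) * z) = p * lift p Q := by
    have h1 : (t ^ 2) ^ 2 = 1 + p * lift p Q := by rw [← pow_mul]; exact h24
    rw [hz] at h1
    linear_combination h1 - z ^ 2 * hP
  have e2 : (p : R p) * z = h * (p * lift p Q) := by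
    linear_combination h * e1 - (p : R p) * z * hh
  -- `2 s p w = p z + p y`
  have e3 : 2 * (s * ((p : R p) * w)) = p * z + p * y := by
    have h1 : (t * E) ^ 2 = t ^ 2 * E ^ 2 := mul_pow _ _ _
    rw [hw, hz, hy] at h1
    linear_combination h1 - hs2 - w ^ 2 * hP + z * y * hP
  -- the fourth of `Q`
  have hred2 : (2 : ZMod p) * red p h = 1 := by
    have h1 := congrArg (red p) hh
    rwa [map_mul, map_ofNat, map_one] at h1
  have e4 : (p : R p) * lift p (Q / 4) = p * (h ^ 2 * lift p Q) := by
    apply p_mul_eq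
    rw [red_lift, map_mul, map_pow, red_lift]
    have h4' : (4 : ZMod p) ≠ 0 := by
      intro h0
      have h1 : (2 * red p h) ^ 2 = 1 := by rw [hred2, one_pow]
      have h3 : (1 : ZMod p) = 0 := by linear_combination -h1 + (red p h) ^ 2 * h0
      exact one_ne_zero h3
    rw [div_eq_iff h4']
    linear_combination (-Q) * (2 * red p h + 1) * hred2
  have e5 : (p : R p) * b = p * (E * G) := p_mul_eq p _ _ hb
  -- conclusion
  have e6 : E * G = (s + p * w) * (u * (1 - p * lift p (Q / 4))) := by
    rw [← hw, hG, h4]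
    ring
  have e7 : a + b = E * G * (2 - p * y) := by
    rw [h8, hy] at hab
    linear_combination hab - y * e5
  rw [e7, e6, e4]
  have e8 : 2 * ((p : R p) * w) = s * (p * z + p * y) := by
    linear_combination s * e3 - 2 * (p : R p) * w * hs2
  have e9 : 2 * h ^ 2 * ((p : R p) * lift p Q) = h * (p * lift p Q) := by
    linear_combination h * (p * lift p Q) * hh
  linear_combination (u * (-(w * y) - w * (2 * h ^ 2 * lift p Q) + s * y * (h ^ 2 * lift p Q)) +
    u * (p : R p) * w * y * h ^ 2 * lift p Q) * hP + u * e8 + u * s * e2 - u * s * e9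

end Pool.Agent.Q205.E8
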